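import Pool.Agent.NH17.Leo.Final

/-!
# MP_f4f39d_al, Q2: the commutators of a Leonard triple containing the Krawtchouk pair

The assertion of Q2 fails for every `d ≥ 1`, and we determine exactly for which Leonard triples
`(A, A*, X)` the three commutators lie in the span of `I, A, A*, X`.
-/

namespace Pool.Agent.Results.MP_f4f39d_al.Commutators

open Pool.Agent.NH17.Leo

universe u

/-- Let `K` be algebraically closed of characteristic `0`. For every `d ≥ 1` the matrix
`X = A + A*` makes `(A, A*, X)` a Leonard triple with `[A, A*]` outside the span of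
`I, A, A*, X`. Moreover, for a Leonard triple `(A, A*, X)` on `K^(d+1)`, all three commutators lie
in the span of `I, A, A*, X` if and only if `d = 0` or `X = a I + b A + c A* + g [A, A*]` for some
`a, b, c, g` with `g ≠ 0`. -/
theorem result (K : Type u) [Field K] [IsAlgClosed K] [CharZero K] (d : ℕ) :
    (1 ≤ d → Extends K d (matA K d + matAstar K d) ∧
      commA K d ∉ spanX K d (matA K d + matAstar K d)) ∧
    ∀ X : Matrix (Fin (d + 1)) (Fin (d + 1)) K, Extends K d X →
      ((commA K d ∈ spanX K d X ∧ matAstar K d * X - X * matAstar K d ∈ spanX K d X ∧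
        X * matA K d - matA K d * X ∈ spanX K d X) ↔
      (d = 0 ∨ ∃ a b c g : K, g ≠ 0 ∧
        X = a • 1 + b • matA K d + c • matAstar K d + g • commA K d)) :=
  final_two d

end Pool.Agent.Results.MP_f4f39d_al.Commutators
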