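import Pool.Agent.NH17.Leo.Final

/-!
# MP_f4f39d_al, Q1: all Leonard triples containing the Krawtchouk pair of sl2

`matA K d` and `matAstar K d` are the matrices `A` and `A*` of the problem, and `IsLeonardTriple`
is the definition of the problem (see `Pool/Agent/NH17/Leo/Defs.lean`).
-/

namespace Pool.Agent.Results.MP_f4f39d_al.LeonardTriples

open Pool.Agent.NH17.Leo

universe u

/-- Let `K` be algebraically closed of characteristic `0`. Then `(A, A*, X)` is a Leonard triple
on `K^(d+1)` if and only if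
* `d = 0`, or
* `X = a I + b A + c A* + g [A, A*]` with `b² ≠ 4g²`, `c² ≠ 4g²` and `b² + c² ≠ 4g²`, or
* `d = 2` and `X = a I + g [A, A*] + t (A A* + A* A)` with `t² ≠ g²`. -/
theorem result (K : Type u) [Field K] [IsAlgClosed K] [CharZero K] (d : ℕ)
    (X : Matrix (Fin (d + 1)) (Fin (d + 1)) K) :
    IsLeonardTriple (Matrix.toLin' (matA K d)) (Matrix.toLin' (matAstar K d)) (Matrix.toLin' X) ↔
      d = 0 ∨
      (∃ a b c g : K, b ^ 2 ≠ 4 * g ^ 2 ∧ c ^ 2 ≠ 4 * g ^ 2 ∧ b ^ 2 + c ^ 2 ≠ 4 * g ^ 2 ∧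
        X = a • 1 + b • matA K d + c • matAstar K d +
          g • (matA K d * matAstar K d - matAstar K d * matA K d)) ∨
      (d = 2 ∧ ∃ a g t : K, t ^ 2 ≠ g ^ 2 ∧
        X = a • 1 + g • (matA K d * matAstar K d - matAstar K d * matA K d) +
          t • (matA K d * matAstar K d + matAstar K d * matA K d)) :=
  classification d X

end Pool.Agent.Results.MP_f4f39d_al.LeonardTriples
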